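import Mathlib
import Pool.Agent.Work.MP_d9e015_nt.Base

set_option autoImplicit false

namespace Pool.Agent.Results.MP_d9e015_nt.TwoAdicIntegral

open PadicInt Pool.Agent.Work.MP_d9e015_nt

lemma rec_x (x : ℕ → ℚ)
    (h : ∀ n : ℕ, 1 ≤ n → x n = (1 + ∑ i ∈ Finset.range n, x i ^ 2) / n) (n : ℕ) (hn : 1 ≤ n) :
    ((n : ℚ) + 1) * x (n + 1) = x n * (x n + n) := by
  have h1 := h (n + 1) (by omega)
  have h2 := h n hn
  have hn0 : (n : ℚ) ≠ 0 := by
    have : n ≠ 0 := by omega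
    exact_mod_cast this
  have hn1 : ((n : ℚ) + 1) ≠ 0 := by
    have : (n + 1 : ℕ) ≠ 0 := by omega
    exact_mod_cast this
  rw [Finset.sum_range_succ] at h1
  have h3 : x n * n = 1 + ∑ i ∈ Finset.range n, x i ^ 2 := by
    rw [h2]; field_simp
  rw [h1]
  push_cast
  field_simp
  linear_combination -h3

lemma integral_of (X : ℚ_[2]) (n k : ℕ) (hk : 4 ≤ k) (hn1 : 1 ≤ n) (hn2 : n ≤ 32 * 2 ^ k) (U : ℤ_[2])
    (hU : (n : ℚ_[2]) * X = 16 * (((2 : ℕ) ^ k : ℕ) : ℚ_[2]) ^ 2 * (U : ℚ_[2])) :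
    ∃ Y : ℤ_[2], X = (Y : ℚ_[2]) := by
  obtain ⟨s, m, hm, hnm⟩ := Nat.exists_eq_two_pow_mul_odd (n := n) (by omega)
  have hs : s ≤ k + 5 := by
    by_contra hcon
    push Not at hcon
    have h1 : 2 ^ (k + 6) ≤ n := by
      rw [hnm]
      calc 2 ^ (k + 6) ≤ 2 ^ s := Nat.pow_le_pow_right (by norm_num) hcon
        _ = 2 ^ s * 1 := (mul_one _).symm
        _ ≤ 2 ^ s * m := Nat.mul_le_mul_left _ hm.pos
    have h2 : 2 ^ (k + 6) = 64 * 2 ^ k := by rw [pow_add]; ring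
    have h3 : 0 < 2 ^ k := by positivity
    omega
  obtain ⟨d, hd⟩ : ∃ d, 4 + 2 * k = s + d := ⟨4 + 2 * k - s, by omega⟩
  obtain ⟨i, hi⟩ := odd_unit m hm
  refine ⟨2 ^ d * U * i, ?_⟩
  have hn0 : (n : ℚ_[2]) ≠ 0 := by
    have : n ≠ 0 := by omega
    exact_mod_cast this
  apply mul_left_cancel₀ hn0
  rw [hU, hnm]
  have hi' : (m : ℚ_[2]) * (i : ℚ_[2]) = 1 := by
    have := congrArg (fun x : ℤ_[2] => (x : ℚ_[2])) hi
    push_cast at this
    exact this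
  have h2 : ((2 : ℤ_[2]) : ℚ_[2]) = 2 := rfl
  have h16 : (16 : ℚ_[2]) * ((2 : ℚ_[2]) ^ k) ^ 2 = 2 ^ s * 2 ^ d := by
    rw [← pow_add, ← hd, pow_add, pow_mul, ← pow_mul, mul_comm k 2, pow_mul]
    norm_num
  push_cast
  rw [h16, h2]
  linear_combination (-(2 : ℚ_[2]) ^ s * 2 ^ d * U) * hi'

lemma odd_den (q : ℚ) (Y : ℤ_[2]) (h : (q : ℚ_[2]) = (Y : ℚ_[2])) : Odd q.den := by
  have h1 : ‖(q : ℚ_[2])‖ ≤ 1 := by
    rw [h]
    exact Y.2
  have h2 := PadicInt.isUnit_den q h1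
  by_contra hodd
  rw [Nat.not_odd_iff_even] at hodd
  obtain ⟨r, hr⟩ := hodd
  rw [hr] at h2
  rw [PadicInt.isUnit_iff] at h2
  have h3 : ‖((r + r : ℕ) : ℤ_[2])‖ < 1 := by
    rw [PadicInt.norm_lt_one_iff_dvd]
    exact ⟨(r : ℤ_[2]), by push_cast; ring⟩
  rw [h2] at h3
  exact lt_irrefl _ h3

/-- Boyd's question: every term of the Lenstra sequence is a 2-adic integer. -/
theorem result (x : ℕ → ℚ) (h0 : x 0 = 1)
    (h : ∀ n : ℕ, 1 ≤ n → x n = (1 + ∑ i ∈ Finset.range n, x i ^ 2) / n) :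
    ∀ n : ℕ, Odd (x n).den := by
  have hx1 : x 1 = 2 := by
    rw [h 1 le_rfl]
    simp [h0]
    norm_num
  set X : ℕ → ℚ_[2] := fun n => ((x n : ℚ) : ℚ_[2]) with hX
  have hrecX : ∀ n : ℕ, 1 ≤ n → ((n : ℚ_[2]) + 1) * X (n + 1) = X n * (X n + n) := by
    intro n hn
    have := congrArg (fun q : ℚ => (q : ℚ_[2])) (rec_x x h n hn)
    push_cast at this
    exact this
  set Z : ℕ → ℚ_[2] := fun n => (n : ℚ_[2]) * X n with hZ
  have hRec : Rec Z := by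
    intro n hn
    have := hrecX n hn
    simp only [hZ]
    push_cast
    linear_combination ((n : ℚ_[2]) ^ 2) * this
  -- base computation
  have hrun : ∃ r : ℕ × ℕ, run 255 1 2 300 = some r ∧ r.1 % 128 = 64 ∧ r.2 = 45 := by
    have hc := run_check
    rcases hr : run 255 1 2 300 with _ | r
    · rw [hr] at hc
      simp at hc
    · rw [hr] at hc
      simp only [Option.map_some, Option.some.injEq, Prod.mk.injEq] at hc
      exact ⟨r, rfl, hc.1, hc.2⟩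
  obtain ⟨r, hr, hr1, hr2⟩ := hrun
  obtain ⟨hsmall, b, hb⟩ := run_sound X hrecX 255 1 2 300 r le_rfl hr
    ⟨0, by simp only [hX, hx1]; push_cast; simp; rfl⟩
  clear hr
  have hbase : ∃ w : ℤ_[2], IsUnit w ∧ At Z 4 16 (4 * w) := by
    refine ⟨1 + 2 * ((r.1 / 128 : ℕ) + 2 ^ 38 * b), unit_one_add_two _, ?_⟩
    have hr1' : (r.1 : ℤ_[2]) = 64 + 128 * ((r.1 / 128 : ℕ) : ℤ_[2]) := by
      have h1 : r.1 = 64 + 128 * (r.1 / 128) := by omega
      have h2 := congrArg (fun x : ℕ => (x : ℤ_[2])) h1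
      push_cast at h2
      exact h2
    have hX256 : X 256 = (((64 : ℤ_[2]) * (1 + 2 * ((r.1 / 128 : ℕ) + 2 ^ 38 * b)) : ℤ_[2]) : ℚ_[2]) := by
      rw [show (256 : ℕ) = 1 + 255 from rfl, hb, hr2, hr1']
      congr 1
      ring_nf
    unfold At
    simp only [hZ]
    rw [show (16 * 2 ^ 4 : ℕ) = 256 from rfl, hX256]
    have h64 : ((64 : ℤ_[2]) : ℚ_[2]) = 64 := rfl
    have h4 : ((4 : ℤ_[2]) : ℚ_[2]) = 4 := rfl
    rw [PadicInt.coe_mul, PadicInt.coe_mul, h64, h4]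
    push_cast
    ring_nf
  have hall : ∀ k : ℕ, 4 ≤ k → ∃ w : ℤ_[2], IsUnit w ∧ At Z k 16 (4 * w) := by
    intro k hk
    induction k, hk using Nat.le_induction with
    | base => exact hbase
    | succ k _ ih =>
      obtain ⟨w, hw, hat⟩ := ih
      exact (block Z hRec k w hw hat).1
  intro n
  rcases Nat.eq_zero_or_pos n with hn | hn
  · subst hn
    rw [h0]
    simp
  rcases Nat.lt_or_ge 256 n with hn2 | hn2
  · -- large n
    set k := Nat.log 2 (n - 1) - 4 with hk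
    have hlog : 8 ≤ Nat.log 2 (n - 1) := by
      apply Nat.le_log_of_pow_le (by norm_num)
      norm_num
      omega
    have hlow : 2 ^ Nat.log 2 (n - 1) ≤ n - 1 := Nat.pow_log_le_self 2 (by omega)
    have hup : n - 1 < 2 ^ (Nat.log 2 (n - 1) + 1) := Nat.lt_pow_succ_log_self (by norm_num) _
    have hlk : Nat.log 2 (n - 1) = k + 4 := by omega
    rw [hlk] at hlow hup
    have e1 : 2 ^ (k + 4) = 16 * 2 ^ k := by rw [pow_add]; ring
    have e2 : 2 ^ (k + 4 + 1) = 32 * 2 ^ k := by rw [pow_succ, pow_add]; ring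
    rw [e1] at hlow
    rw [e2] at hup
    obtain ⟨w, hw, hat⟩ := hall k (by omega)
    obtain ⟨U, hU⟩ := (block Z hRec k w hw hat).2 n (by omega) (by omega)
    obtain ⟨Y, hY⟩ := integral_of (X n) n k (by omega) hn (by omega) U hU
    exact odd_den (x n) Y hY
  · obtain ⟨Y, hY⟩ := hsmall (n - 1) (by omega)
    have : 1 + (n - 1) = n := by omega
    rw [this] at hY
    exact odd_den (x n) Y hY

end Pool.Agent.Results.MP_d9e015_nt.TwoAdicIntegral
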